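import Pool.Agent.Helper69.LW.Basic
import Pool.Agent.Helper77.LW.GG
import Pool.Agent.Helper18.LW.OD

/-!
# MP_687a20_mp : module OR (orthogonal decomposition)
-/

open MeasureTheory Set Filter Topology
open scoped ContDiff

namespace LeakyWire

variable {f u w : ℝ × ℝ → ℝ}

/-- slices in the first variable -/
theorem Nice.or_slice1 (hf : Nice f) (t : ℝ) : Integrable (fun s => f (s, t)) := by
  obtain ⟨R, L, hR, hL, h⟩ := hf.bdd
  have h1 : Integrable ((Icc (-L) L).indicator fun _ : ℝ => R) := by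
    rw [integrable_indicator_iff measurableSet_Icc]
    exact integrableOn_const (by simp)
  refine h1.mono' (hf.meas.comp (measurable_id.prodMk measurable_const)).aestronglyMeasurable
    (Eventually.of_forall fun s => ?_)
  by_cases hs : s ∈ Icc (-L) L
  · rw [indicator_of_mem hs, Real.norm_eq_abs]
    exact (h (s, t)).1.trans (mul_le_of_le_one_right hR (gs_le_one _))
  · have h2 : f (s, t) = 0 := (h (s, t)).2 (by
      rw [mem_Icc, ← abs_le] at hs
      exact not_le.mp hs)
    show ‖f (s, t)‖ ≤ _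
    rw [h2, norm_zero, indicator_of_notMem hs]

theorem Nice.or_fubini_integrable (hf : Nice f) :
    Integrable (fun t => ∫ s in Ioi (0 : ℝ), f (s, t)) := by
  have := hf.integrableOn hp
  rw [IntegrableOn, restrict_hp] at this
  exact this.integral_prod_right

theorem or_sq_integrable {h : ℝ → ℝ} (hh : Continuous h) (hc : HasCompactSupport h) :
    Integrable (fun s => h s ^ 2) := by
  have e : (fun s => h s ^ 2) = fun s => h s * h s := by
    funext s
    ring
  rw [e]
  exact (hh.mul hh).integrable_of_hasCompactSupport hc.mul_left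

theorem Nice.or_gs_mul (hf : Nice f) : Nice (fun p => gs p.2 * f p) :=
  hf.bdd_mul (b := fun p : ℝ × ℝ => gs p.2) (gs_cont.measurable.comp measurable_snd) 1 fun p => by
    rw [abs_of_pos (gs_pos _)]
    exact gs_le_one _

theorem or_int3 {f g k : ℝ → ℝ} (hf : Integrable f) (hg : Integrable g) (hk : Integrable k) :
    ∫ t, (f t + g t + k t) = (∫ t, f t) + (∫ t, g t) + ∫ t, k t := by
  have h1 := integral_add (hf.add hg) hk
  have h2 := integral_add hf hg
  rw [← h2]
  exact h1

theorem or_gs_sq_integrable : Integrable (fun t => gs t ^ 2) := by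
  refine gs_integrable.mono' (gs_cont.pow 2).aestronglyMeasurable
    (Eventually.of_forall fun t => ?_)
  rw [Real.norm_of_nonneg (by positivity)]
  exact gs_sq_le t

/-- the general orthogonal decomposition -/
theorem orth_gen {a b : ℝ × ℝ → ℝ} {h : ℝ → ℝ} (hb : Nice b) (ha : Nice a)
    (hh : Continuous h) (hc : HasCompactSupport h)
    (hab : ∀ s t, a (s, t) = b (s, t) + h s * gs t) (ho : ∀ s, ∫ t, b (s, t) * gs t = 0) :
    ∫ p in hp, a p ^ 2 = 2 * (∫ s in Ioi (0 : ℝ), h s ^ 2) + ∫ p in hp, b p ^ 2 := by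
  have h1 : ∀ s, ∫ t, a (s, t) ^ 2 = 2 * h s ^ 2 + ∫ t, b (s, t) ^ 2 := by
    intro s
    have hbs : Integrable (fun t => b (s, t) ^ 2) := hb.sq.slice s
    have hgb : Integrable (fun t => 2 * h s * (b (s, t) * gs t)) := by
      refine Integrable.const_mul ?_ _
      refine (hb.or_gs_mul.slice s).congr (Eventually.of_forall fun t => ?_)
      show gs t * b (s, t) = b (s, t) * gs t
      ring
    have hgg : Integrable (fun t => h s ^ 2 * gs t ^ 2) := or_gs_sq_integrable.const_mul _
    have e : (fun t => a (s, t) ^ 2) = fun t =>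
        (b (s, t) ^ 2 + 2 * h s * (b (s, t) * gs t)) + h s ^ 2 * gs t ^ 2 := by
      funext t
      rw [hab]
      ring
    rw [e, or_int3 hbs hgb hgg, integral_const_mul, integral_const_mul, ho, gs_sq_integral]
    ring
  rw [ha.sq.fubini, hb.sq.fubini]
  have h2 : IntegrableOn (fun s => 2 * h s ^ 2) (Ioi (0 : ℝ)) :=
    ((or_sq_integrable hh hc).const_mul 2).integrableOn
  have e : (fun s => ∫ t, a (s, t) ^ 2) = fun s => 2 * h s ^ 2 + ∫ t, b (s, t) ^ 2 := funext h1
  show ∫ s in Ioi (0 : ℝ), ∫ t, a (s, t) ^ 2 = _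
  rw [e, integral_add h2 hb.sq.fubini_integrable, integral_const_mul]

theorem or_u_eq (u : ℝ × ℝ → ℝ) (s t : ℝ) : u (s, t) = vv u (s, t) + gg u s * gs t := by
  unfold vv
  ring

theorem or_d1_eq (u : ℝ × ℝ → ℝ) (s t : ℝ) : d1 u (s, t) = vs u (s, t) + deriv (gg u) s * gs t := by
  unfold vs
  ring

theorem or_dg_cont (hu : Test u) : Continuous (deriv (gg u)) :=
  (gg_smooth hu).1.continuous_deriv le_rfl

theorem or_dg_supp (hu : Test u) : HasCompactSupport (deriv (gg u)) :=
  (gg_smooth hu).2.deriv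

theorem orth0 (hu : Test u) :
    N u = 2 * (∫ s in Ioi (0 : ℝ), gg u s ^ 2) + ∫ p in hp, vv u p ^ 2 :=
  orth_gen (nice_vv hu) hu.nice (gg_smooth hu).1.continuous (gg_smooth hu).2 (or_u_eq u)
    (vv_orth hu)

theorem orth1 (hu : Test u) :
    ∫ p in hp, d1 u p ^ 2 =
      2 * (∫ s in Ioi (0 : ℝ), deriv (gg u) s ^ 2) + ∫ p in hp, vs u p ^ 2 :=
  orth_gen (nice_vs hu) hu.test_d1.nice (or_dg_cont hu) (or_dg_supp hu) (or_d1_eq u) (vs_orth hu)

theorem or_nice_dgD (hu : Test u) : Nice (fun p => deriv (gg u) p.1 * gs p.2 * D u p) :=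
  (nice_gs (or_dg_cont hu) (or_dg_supp hu)).mul hu.nice_D

theorem or_dgD_slice (u : ℝ × ℝ → ℝ) (s : ℝ) :
    ∫ t, deriv (gg u) s * gs t * D u (s, t) = deriv (gg u) s * ∫ t, gs t * D u (s, t) := by
  rw [← integral_const_mul]
  refine integral_congr_ae (Eventually.of_forall fun t => ?_)
  show _ = deriv (gg u) s * (gs t * D u (s, t))
  ring

theorem orthX (hu : Test u) :
    ∫ p in hp, d1 u p * D u p = (∫ p in hp, vs u p * D u p) +
      ∫ s in Ioi (0 : ℝ), deriv (gg u) s * ∫ t, gs t * D u (s, t) := by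
  have h1 : ∫ p in hp, deriv (gg u) p.1 * gs p.2 * D u p =
      ∫ s in Ioi (0 : ℝ), deriv (gg u) s * ∫ t, gs t * D u (s, t) := by
    rw [(or_nice_dgD hu).fubini]
    refine integral_congr_ae (Eventually.of_forall fun s => ?_)
    exact or_dgD_slice u s
  rw [← h1, ← integral_add (((nice_vs hu).mul hu.nice_D).integrableOn hp)
    ((or_nice_dgD hu).integrableOn hp)]
  refine integral_congr_ae (Eventually.of_forall fun p => ?_)
  show d1 u p * D u p = vs u p * D u p + deriv (gg u) p.1 * gs p.2 * D u p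
  have := or_d1_eq u p.1 p.2
  rw [show d1 u p = d1 u (p.1, p.2) from rfl, this]
  ring

theorem or_sign_gs_sq_integral : ∫ t, Real.sign t * gs t ^ 2 = 0 := by
  have h1 : ∫ t, Real.sign t * gs t ^ 2 = ∫ t, Real.sign (-t) * gs (-t) ^ 2 :=
    (integral_neg_eq_self (fun t => Real.sign t * gs t ^ 2) volume).symm
  have h2 : ∫ t, Real.sign (-t) * gs (-t) ^ 2 = -∫ t, Real.sign t * gs t ^ 2 := by
    rw [← integral_neg]
    refine integral_congr_ae (Eventually.of_forall fun t => ?_)
    show Real.sign (-t) * gs (-t) ^ 2 = -(Real.sign t * gs t ^ 2)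
    rw [sign_neg, gs_neg]
    ring
  linarith

theorem or_sgs_integrable : Integrable (fun t => Real.sign t * gs t ^ 2) := by
  refine gs_integrable.mono' (sign_meas.mul (gs_cont.pow 2).measurable).aestronglyMeasurable
    (Eventually.of_forall fun t => ?_)
  rw [norm_mul, Real.norm_eq_abs, Real.norm_of_nonneg (by positivity)]
  have h1 := abs_sign_le t
  have h2 := gs_sq_le t
  have h3 : 0 ≤ gs t ^ 2 := by positivity
  nlinarith

theorem orthB (hu : Test u) :
    ∫ t, Real.sign t * u (0, t) ^ 2 =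
      2 * gg u 0 * W u + ∫ t, Real.sign t * vv u (0, t) ^ 2 := by
  have hv := nice_vv hu
  have i1 : Integrable (fun t => Real.sign t * vv u (0, t) ^ 2) := hv.sq.sign_mul.slice 0
  have i2 : Integrable (fun t => Real.sign t * gs t * vv u (0, t)) := by
    refine (hv.or_gs_mul.sign_mul.slice 0).congr (Eventually.of_forall fun t => ?_)
    show Real.sign t * (gs t * vv u (0, t)) = _
    ring
  have hW : W u = ∫ t, Real.sign t * gs t * vv u (0, t) := by
    have e : (fun t => Real.sign t * gs t * u (0, t)) = fun t =>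
        Real.sign t * gs t * vv u (0, t) + gg u 0 * (Real.sign t * gs t ^ 2) := by
      funext t
      rw [or_u_eq u 0 t]
      ring
    unfold W
    rw [e, integral_add i2 (or_sgs_integrable.const_mul _), integral_const_mul,
      or_sign_gs_sq_integral, mul_zero, add_zero]
  have e : (fun t => Real.sign t * u (0, t) ^ 2) = fun t =>
      (2 * gg u 0 * (Real.sign t * gs t * vv u (0, t)) + Real.sign t * vv u (0, t) ^ 2) +
        gg u 0 ^ 2 * (Real.sign t * gs t ^ 2) := by
    funext t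
    rw [or_u_eq u 0 t]
    ring
  rw [e, or_int3 (i2.const_mul _) i1 (or_sgs_integrable.const_mul _), integral_const_mul,
    integral_const_mul, or_sign_gs_sq_integral, ← hW, mul_zero, add_zero]

theorem or_trace_slice (hu : Test u) (t : ℝ) :
    vv u (0, t) ^ 2 ≤ ∫ s in Ioi (0 : ℝ), (vv u (s, t) ^ 2 + vs u (s, t) ^ 2) := by
  have hv := nice_vv hu
  have hs := nice_vs hu
  have hder : ∀ s ∈ Ici (0 : ℝ), HasDerivAt (fun s => vv u (s, t) ^ 2)
      (2 * (vv u (s, t) * vs u (s, t))) s := by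
    intro s _
    have := (vv_hasDerivAt hu s t).pow 2
    refine this.congr_deriv ?_
    simp
    ring
  have hint : IntegrableOn (fun s => 2 * (vv u (s, t) * vs u (s, t))) (Ioi (0 : ℝ)) :=
    (((hv.mul hs).or_slice1 t).const_mul 2).integrableOn
  have hlim : Tendsto (fun s => vv u (s, t) ^ 2) atTop (𝓝 0) := by
    obtain ⟨R, L, hR, hL, h⟩ := hv.bdd
    refine tendsto_const_nhds.congr' ?_
    filter_upwards [eventually_gt_atTop L] with s hs
    rw [(h (s, t)).2 (lt_of_lt_of_le hs (le_abs_self s))]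
    simp
  have h1 := integral_Ioi_of_hasDerivAt_of_tendsto' hder hint hlim
  have h2 : vv u (0, t) ^ 2 = ∫ s in Ioi (0 : ℝ), -(2 * (vv u (s, t) * vs u (s, t))) := by
    rw [integral_neg, h1]
    ring
  rw [h2]
  refine integral_mono hint.neg
    (((hv.sq.or_slice1 t).add (hs.sq.or_slice1 t)).integrableOn) fun s => ?_
  show -(2 * (vv u (s, t) * vs u (s, t))) ≤ vv u (s, t) ^ 2 + vs u (s, t) ^ 2
  nlinarith [sq_nonneg (vv u (s, t) + vs u (s, t))]

theorem trace_le (hu : Test u) :
    ∫ t, vv u (0, t) ^ 2 ≤ (∫ p in hp, vv u p ^ 2) + ∫ p in hp, vs u p ^ 2 := by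
  have hv := nice_vv hu
  have hs := nice_vs hu
  have hn : Nice (fun p => vv u p ^ 2 + vs u p ^ 2) := hv.sq.add hs.sq
  rw [← integral_add (hv.sq.integrableOn hp) (hs.sq.integrableOn hp)]
  have h1 := hn.fubini'
  rw [h1]
  exact integral_mono (hv.sq.slice 0) hn.or_fubini_integrable (or_trace_slice hu)

theorem or_slice_smooth (hu : Test u) (s : ℝ) :
    ContDiff ℝ ∞ (fun t => u (s, t)) ∧ HasCompactSupport (fun t => u (s, t)) := by
  constructor
  · exact hu.1.comp (contDiff_const.prodMk contDiff_id)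
  · obtain ⟨L, hL0, hL⟩ := hu.box
    refine HasCompactSupport.intro (isCompact_Icc (a := -L) (b := L)) fun t ht => ?_
    refine hL (s, t) (Or.inr ?_)
    rw [mem_Icc, ← abs_le] at ht
    exact not_le.mp ht

theorem poincare (hu : Test u) : ∫ p in hp, vv u p ^ 2 ≤ 4 * ∫ p in hp, D u p ^ 2 := by
  have hv := nice_vv hu
  have hD := hu.nice_D
  rw [hv.sq.fubini, hD.sq.fubini, ← integral_const_mul]
  refine integral_mono hv.sq.fubini_integrable (hD.sq.fubini_integrable.const_mul 4) fun s => ?_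
  obtain ⟨h1, h2⟩ := or_slice_smooth hu s
  have h3 := poincare_slice h1 h2
  have h4 : ∀ t, deriv (fun t => u (s, t)) t = d2 u (s, t) := fun t =>
    (hasDerivAt_2 hu.diff s t).deriv
  simp only [h4] at h3
  exact h3

theorem or_cs_slice (hu : Test u) (s : ℝ) :
    (∫ t, gs t * D u (s, t)) ^ 2 ≤ 2 * ∫ t, D u (s, t) ^ 2 := by
  have hD := hu.nice_D
  set I : ℝ := ∫ t, gs t * D u (s, t) with hI
  have i1 : Integrable (fun t => D u (s, t) ^ 2) := hD.sq.slice s
  have i2 : Integrable (fun t => gs t * D u (s, t)) := hD.or_gs_mul.slice s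
  have i3 : Integrable (fun t => gs t ^ 2) := or_gs_sq_integrable
  have h1 : 0 ≤ ∫ t, (D u (s, t) - I / 2 * gs t) ^ 2 := integral_nonneg fun t => sq_nonneg _
  have e : (fun t => (D u (s, t) - I / 2 * gs t) ^ 2) = fun t =>
      (D u (s, t) ^ 2 + -I * (gs t * D u (s, t))) + I ^ 2 / 4 * gs t ^ 2 := by
    funext t
    ring
  rw [e, or_int3 i1 (i2.const_mul _) (i3.const_mul _), integral_const_mul, integral_const_mul,
    gs_sq_integral, ← hI] at h1
  nlinarith

theorem crossY (hu : Test u) :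
    2 * |∫ s in Ioi (0 : ℝ), deriv (gg u) s * ∫ t, gs t * D u (s, t)| ≤
      2 * (∫ s in Ioi (0 : ℝ), deriv (gg u) s ^ 2) + ∫ p in hp, D u p ^ 2 := by
  have hD := hu.nice_D
  have i1 : IntegrableOn (fun s => deriv (gg u) s * ∫ t, gs t * D u (s, t)) (Ioi (0 : ℝ)) :=
    (or_nice_dgD hu).fubini_integrable.congr (Eventually.of_forall fun s => or_dgD_slice u s)
  have i2 : IntegrableOn (fun s => deriv (gg u) s ^ 2) (Ioi (0 : ℝ)) :=
    (or_sq_integrable (or_dg_cont hu) (or_dg_supp hu)).integrableOn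
  have i3 := hD.sq.fubini_integrable
  have h1 : |∫ s in Ioi (0 : ℝ), deriv (gg u) s * ∫ t, gs t * D u (s, t)| ≤
      ∫ s in Ioi (0 : ℝ), (deriv (gg u) s ^ 2 + 1 / 2 * ∫ t, D u (s, t) ^ 2) := by
    refine (abs_integral_le_integral_abs).trans ?_
    refine integral_mono i1.abs (i2.add (i3.const_mul _)) fun s => ?_
    show |deriv (gg u) s * ∫ t, gs t * D u (s, t)| ≤
      deriv (gg u) s ^ 2 + 1 / 2 * ∫ t, D u (s, t) ^ 2
    have h2 := or_cs_slice hu s
    set a := deriv (gg u) s
    set I := ∫ t, gs t * D u (s, t)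
    rw [abs_le]
    constructor
    · nlinarith [sq_nonneg (a + I / 2)]
    · nlinarith [sq_nonneg (a - I / 2)]
  rw [integral_add i2 (i3.const_mul _), integral_const_mul] at h1
  rw [hD.sq.fubini]
  linarith

end LeakyWire
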