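import Pool.Agent.Helper69.LW.Basic

/-!
# MP_687a20_mp : module SH (rotation and shear)
-/

open MeasureTheory Set Filter Topology
open scoped ContDiff

namespace LeakyWire

variable {f u w : ℝ × ℝ → ℝ}

/-- The rotation and shear as a homeomorphism. -/
noncomputable def hmeo (c σ : ℝ) (hc : c ≠ 0) : (ℝ × ℝ) ≃ₜ (ℝ × ℝ) where
  toFun p := (c * p.1, σ * p.1 + p.2 / c)
  invFun p := (p.1 / c, c * p.2 - σ * p.1)
  left_inv := by
    rintro ⟨s, t⟩
    simp only [Prod.mk.injEq]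
    constructor
    · field_simp
    · field_simp
      ring
  right_inv := by
    rintro ⟨s, t⟩
    simp only [Prod.mk.injEq]
    constructor
    · field_simp
    · field_simp
      ring
  continuous_toFun := by fun_prop
  continuous_invFun := by fun_prop

theorem half_eq (f : ℝ × ℝ → ℝ) {θ : ℝ} (hc : Real.cos (θ / 2) ≠ 0) :
    half θ f = f ∘ hmeo (Real.cos (θ / 2)) (Real.sin (θ / 2)) hc := rfl

theorem unhalf_eq (f : ℝ × ℝ → ℝ) {θ : ℝ} (hc : Real.cos (θ / 2) ≠ 0) :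
    unhalf θ f = f ∘ (hmeo (Real.cos (θ / 2)) (Real.sin (θ / 2)) hc).symm := rfl

theorem Test.half (hf : Test f) {θ : ℝ} (hθ : 0 < Real.cos (θ / 2)) :
    Test (LeakyWire.half θ f) := by
  refine ⟨?_, ?_⟩
  · unfold LeakyWire.half
    exact hf.1.comp ((contDiff_const.mul contDiff_fst).prodMk
      ((contDiff_const.mul contDiff_fst).add (contDiff_snd.div_const _)))
  · rw [half_eq f hθ.ne']
    exact hf.2.comp_homeomorph _

theorem Test.unhalf (hf : Test f) {θ : ℝ} (hθ : 0 < Real.cos (θ / 2)) :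
    Test (LeakyWire.unhalf θ f) := by
  refine ⟨?_, ?_⟩
  · unfold LeakyWire.unhalf
    exact hf.1.comp ((contDiff_fst.div_const _).prodMk
      ((contDiff_const.mul contDiff_snd).sub (contDiff_const.mul contDiff_fst)))
  · rw [unhalf_eq f hθ.ne']
    exact hf.2.comp_homeomorph _

theorem half_unhalf (u : ℝ × ℝ → ℝ) {θ : ℝ} (hθ : 0 < Real.cos (θ / 2)) :
    half θ (unhalf θ u) = u := by
  rw [half_eq _ hθ.ne', unhalf_eq _ hθ.ne']
  funext p
  simp

theorem hmeo_mp (c σ : ℝ) (hc : c ≠ 0) :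
    MeasurePreserving (hmeo c σ hc) (volume : Measure (ℝ × ℝ)) volume := by
  refine ⟨(hmeo c σ hc).continuous.measurable, ?_⟩
  have h1 : (hmeo c σ hc : ℝ × ℝ → ℝ × ℝ) =
      Matrix.toLin (Module.Basis.finTwoProd ℝ) (Module.Basis.finTwoProd ℝ) !![c, 0; σ, 1 / c] := by
    funext p
    rw [Matrix.toLin_finTwoProd_apply]
    show (c * p.1, σ * p.1 + p.2 / c) = _
    simp only [zero_mul, add_zero, Prod.mk.injEq, true_and]
    ring
  have hdet : LinearMap.det (Matrix.toLin (Module.Basis.finTwoProd ℝ) (Module.Basis.finTwoProd ℝ)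
      !![c, 0; σ, 1 / c]) = 1 := by
    rw [LinearMap.det_toLin, Matrix.det_fin_two_of]
    field_simp
    ring
  rw [h1, Measure.map_linearMap_addHaar_eq_smul_addHaar (μ := (volume : Measure (ℝ × ℝ)))
    (by rw [hdet]; exact one_ne_zero), hdet]
  simp

theorem hmeo_integral (F : ℝ × ℝ → ℝ) {c : ℝ} (σ : ℝ) (hc : 0 < c) :
    ∫ p in hp, F (hmeo c σ hc.ne' p) = ∫ p in hp, F p := by
  have h1 : hmeo c σ hc.ne' ⁻¹' hp = hp := by
    ext p
    show hmeo c σ hc.ne' p ∈ hp ↔ p ∈ hp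
    rw [mem_hp, mem_hp]
    show 0 < c * p.1 ↔ 0 < p.1
    exact mul_pos_iff_of_pos_left hc
  have h2 := (hmeo_mp c σ hc.ne').setIntegral_preimage_emb
    (hmeo c σ hc.ne').measurableEmbedding F hp
  rw [h1] at h2
  exact h2

theorem N_half (f : ℝ × ℝ → ℝ) {θ : ℝ} (hθ : 0 < Real.cos (θ / 2)) : N (half θ f) = N f :=
  hmeo_integral (fun p => f p ^ 2) (Real.sin (θ / 2)) hθ

theorem fderiv_pair (f : ℝ × ℝ → ℝ) (p : ℝ × ℝ) (a b : ℝ) :
    fderiv ℝ f p (a, b) = a * d1 f p + b * d2 f p := by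
  unfold d1 d2
  have : ((a, b) : ℝ × ℝ) = a • ((1 : ℝ), (0 : ℝ)) + b • ((0 : ℝ), (1 : ℝ)) := by simp
  rw [this, map_add, map_smul, map_smul, smul_eq_mul, smul_eq_mul]

theorem d1_half (hf : Test f) {θ : ℝ} (hθ : 0 < Real.cos (θ / 2)) (p : ℝ × ℝ) :
    d1 (half θ f) p =
      Real.cos (θ / 2) * d1 f (hmeo (Real.cos (θ / 2)) (Real.sin (θ / 2)) hθ.ne' p) +
      Real.sin (θ / 2) * d2 f (hmeo (Real.cos (θ / 2)) (Real.sin (θ / 2)) hθ.ne' p) := by
  obtain ⟨s, t⟩ := p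
  have h1 := hasDerivAt_1 (hf.half hθ).diff s t
  have h2 : HasDerivAt (fun s : ℝ => hmeo (Real.cos (θ / 2)) (Real.sin (θ / 2)) hθ.ne' (s, t))
      (Real.cos (θ / 2), Real.sin (θ / 2)) s := by
    have a1 : HasDerivAt (fun s : ℝ => Real.cos (θ / 2) * s) (Real.cos (θ / 2)) s := by
      simpa using (hasDerivAt_id s).const_mul (Real.cos (θ / 2))
    have a2 : HasDerivAt (fun s : ℝ => Real.sin (θ / 2) * s + t / Real.cos (θ / 2))
        (Real.sin (θ / 2)) s := by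
      simpa using ((hasDerivAt_id s).const_mul (Real.sin (θ / 2))).add_const
        (t / Real.cos (θ / 2))
    exact a1.prodMk a2
  have h3 := (hf.diff (hmeo (Real.cos (θ / 2)) (Real.sin (θ / 2)) hθ.ne'
    (s, t))).hasFDerivAt.comp_hasDerivAt s h2
  rw [fderiv_pair] at h3
  exact h1.unique h3

theorem d2_half (hf : Test f) {θ : ℝ} (hθ : 0 < Real.cos (θ / 2)) (p : ℝ × ℝ) :
    d2 (half θ f) p =
      d2 f (hmeo (Real.cos (θ / 2)) (Real.sin (θ / 2)) hθ.ne' p) / Real.cos (θ / 2) := by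
  obtain ⟨s, t⟩ := p
  have h1 := hasDerivAt_2 (hf.half hθ).diff s t
  have h2 : HasDerivAt (fun t : ℝ => hmeo (Real.cos (θ / 2)) (Real.sin (θ / 2)) hθ.ne' (s, t))
      (0, 1 / Real.cos (θ / 2)) t := by
    have a2 : HasDerivAt (fun t : ℝ => Real.sin (θ / 2) * s + t / Real.cos (θ / 2))
        (1 / Real.cos (θ / 2)) t := by
      simpa using ((hasDerivAt_id t).div_const (Real.cos (θ / 2))).const_add
        (Real.sin (θ / 2) * s)
    exact (hasDerivAt_const t (Real.cos (θ / 2) * s)).prodMk a2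
  have h3 := (hf.diff (hmeo (Real.cos (θ / 2)) (Real.sin (θ / 2)) hθ.ne'
    (s, t))).hasFDerivAt.comp_hasDerivAt t h2
  rw [fderiv_pair] at h3
  rw [h1.unique h3]
  ring

theorem q_half (hf : Test f) {θ : ℝ} (hθ : 0 < Real.cos (θ / 2)) :
    q (Real.tan (θ / 2)) (half θ f) = hform θ f := by
  unfold q hform
  congr 1
  · rw [← hmeo_integral (fun p => d1 f p ^ 2 + d2 f p ^ 2) (Real.sin (θ / 2)) hθ]
    refine integral_congr_ae (Eventually.of_forall fun p => ?_)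
    show (1 + Real.tan (θ / 2) ^ 2) * d1 (half θ f) p ^ 2 -
      2 * Real.tan (θ / 2) * (d1 (half θ f) p * d2 (half θ f) p) + d2 (half θ f) p ^ 2 = _
    rw [d1_half hf hθ, d2_half hf hθ, Real.tan_eq_sin_div_cos]
    set X := d1 f (hmeo (Real.cos (θ / 2)) (Real.sin (θ / 2)) hθ.ne' p)
    set Y := d2 f (hmeo (Real.cos (θ / 2)) (Real.sin (θ / 2)) hθ.ne' p)
    set c := Real.cos (θ / 2) with hc
    set σ := Real.sin (θ / 2) with hσ
    have hcs : c ^ 2 + σ ^ 2 = 1 := by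
      rw [hc, hσ]
      exact Real.cos_sq_add_sin_sq _
    have hc0 : c ≠ 0 := hθ.ne'
    have e1 : 1 + (σ / c) ^ 2 = 1 / c ^ 2 := by
      field_simp
      exact hcs
    have e2 : Y / c = 1 / c * Y := by ring
    show (1 + (σ / c) ^ 2) * (c * X + σ * Y) ^ 2 -
      2 * (σ / c) * ((c * X + σ * Y) * (Y / c)) + (Y / c) ^ 2 = X ^ 2 + Y ^ 2
    rw [e1]
    field_simp
    linear_combination (-Y ^ 2) * hcs
  · refine integral_congr_ae (Eventually.of_forall fun s => ?_)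
    show f (Real.cos (θ / 2) * s, Real.sin (θ / 2) * s + 0 / Real.cos (θ / 2)) ^ 2 = _
    rw [zero_div, add_zero, mul_comm (Real.cos (θ / 2)), mul_comm (Real.sin (θ / 2))]

end LeakyWire
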